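import Mathlib

set_option autoImplicit false

namespace Pool.Agent.Results.MP_214325_an.Darboux

open Complex Polynomial Matrix
open scoped ContDiff Real

/-- `L u = u'''' + p_2 u'' + p_1 u' + p_0 u`. -/
noncomputable def Lop (p : Fin 3 → ℝ → ℂ) (u : ℝ → ℂ) (x : ℝ) : ℂ :=
  iteratedDeriv 4 u x + ∑ k : Fin 3, p k x * iteratedDeriv k u x

/-- The Hill operator `H u = u'' + q u`. -/
noncomputable def Hop (q u : ℝ → ℂ) (x : ℝ) : ℂ := iteratedDeriv 2 u x + q x * u x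

/-- The fundamental system of `L u = l u` normalised at `0`. -/
def Fund (p : Fin 3 → ℝ → ℂ) (l : ℂ) (u : Fin 4 → ℝ → ℂ) : Prop :=
  ∀ j, ContDiff ℝ 4 (u j) ∧ (∀ x, Lop p (u j) x = l * u j x) ∧
    ∀ k : Fin 4, iteratedDeriv k (u j) 0 = if j = k then 1 else 0

def Ch (F : ℕ → ℝ → ℂ) : Prop := ∀ k x, HasDerivAt (F k) (F (k + 1) x) x

lemma Ch.smooth {F : ℕ → ℝ → ℂ} (h : Ch F) (k : ℕ) : ContDiff ℝ ∞ (F k) := by
  refine contDiff_infty.2 fun n => ?_
  induction n generalizing k with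
  | zero => exact contDiff_zero.2 (continuous_iff_continuousAt.2 fun x => (h k x).continuousAt)
  | succ n ih =>
    refine (contDiff_succ_iff_deriv (n := n)).2 ⟨fun x => (h k x).differentiableAt, by simp, ?_⟩
    rw [funext fun x => (h k x).deriv]; exact ih _

lemma itd {g : ℕ → ℝ → ℂ} {n : ℕ} (h : ∀ k < n, ∀ x, HasDerivAt (g k) (g (k + 1) x) x) :
    ∀ k ≤ n, iteratedDeriv k (g 0) = g k := fun k hk => by
  induction k with
  | zero => simp
  | succ k ih => rw [iteratedDeriv_succ, ih (by omega), funext fun x => (h k hk x).deriv]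

lemma hE (m : ℂ) (x : ℝ) : HasDerivAt (fun x : ℝ => exp (m * x)) (exp (m * x) * m) x := by
  simpa using ((hasDerivAt_id (x : ℂ)).const_mul m).cexp.comp_ofReal

lemma chE (m : ℂ) : Ch fun k x => m ^ k * exp (m * x) := fun k x =>
  ((hE m x).const_mul (m ^ k)).congr_deriv (by ring)

noncomputable def ψ (k : ℕ) (x : ℝ) : ℂ :=
  (1 - I) ^ k * exp ((1 - I) * x) - 2 * ((1 + I) ^ k * exp ((1 + I) * x))

lemma chψ : Ch ψ := fun k x => (chE _ k x).sub ((chE _ k x).const_mul 2)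

lemma ψ0 (x : ℝ) : ψ 0 x ≠ 0 := fun h => by
  have := congrArg norm (sub_eq_zero.1 h)
  simp [norm_exp] at this

lemma ψ2 (k : ℕ) (x : ℝ) : ψ (k + 2) x = 2 * ψ (k + 1) x - 2 * ψ k x := by
  unfold ψ
  linear_combination ((1 - I) ^ k * exp ((1 - I) * x) - 2 * ((1 + I) ^ k * exp ((1 + I) * x))) * I_sq

lemma eπ : exp ((1 + I) * (π : ℝ)) = exp ((1 - I) * (π : ℝ)) := by
  rw [← exp_periodic ((1 - I) * (π : ℝ))]; congr 1; ring

lemma ψπ (k : ℕ) (x : ℝ) : ψ k (x + π) = exp ((1 - I) * (π : ℝ)) * ψ k x := by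
  simp only [ψ, ofReal_add, mul_add _ (x : ℂ), exp_add, eπ]; ring

noncomputable def v (x : ℝ) : ℂ := ψ 1 x / ψ 0 x

def V1 (a : ℂ) : ℂ := -a ^ 2 + 2 * a - 2
def V2 (a : ℂ) : ℂ := (2 - 2 * a) * V1 a
def V3 (a : ℂ) : ℂ := -2 * V1 a ^ 2 + (2 - 2 * a) * V2 a
def V4 (a : ℂ) : ℂ := -6 * V1 a * V2 a + (2 - 2 * a) * V3 a

lemma d0 (x : ℝ) : HasDerivAt v (V1 (v x)) x := by
  refine ((chψ 1 x).div (chψ 0 x) (ψ0 x)).congr_deriv ?_
  have := ψ0 x
  rw [V1, v, ψ2 0]; field_simp; ring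

lemma d1 (x : ℝ) : HasDerivAt (fun x => V1 (v x)) (V2 (v x)) x :=
  ((((d0 x).pow 2).neg.add ((d0 x).const_mul 2)).sub_const 2).congr_deriv (by simp [V2]; ring)

lemma d2 (x : ℝ) : HasDerivAt (fun x => V2 (v x)) (V3 (v x)) x :=
  ((((d0 x).const_mul 2).const_sub 2).mul (d1 x)).congr_deriv (by rw [V3]; ring)

lemma d3 (x : ℝ) : HasDerivAt (fun x => V3 (v x)) (V4 (v x)) x :=
  ((((d1 x).pow 2).const_mul (-2)).add ((((d0 x).const_mul 2).const_sub 2).mul (d2 x))).congr_deriv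
    (by simp [V4]; ring)

lemma v0 : v 0 = 1 + 3 * I := by simp [v, ψ]; ring

lemma vπ (x : ℝ) : v (x + π) = v x := by rw [v, ψπ, ψπ, mul_div_mul_left _ _ (exp_ne_zero _), v]

lemma v_smooth : ContDiff ℝ ∞ v := (chψ.smooth 1).mul ((chψ.smooth 0).inv ψ0)

noncomputable def p : Fin 3 → ℝ → ℂ :=
  ![fun x => 4 * V3 (v x) + 8 * V1 (v x) ^ 2 + 6 * v x * V2 (v x) + 4 * v x ^ 2 * V1 (v x),
    fun x => 6 * V2 (v x) + 4 * v x * V1 (v x), fun x => 4 * V1 (v x)]

def jet (a : ℂ) (f : ℕ → ℂ) : ℕ → ℂ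
  | 0 => f 1 - a * f 0
  | 1 => f 2 - a * f 1 - V1 a * f 0
  | 2 => f 3 - a * f 2 - 2 * V1 a * f 1 - V2 a * f 0
  | 3 => f 4 - a * f 3 - 3 * V1 a * f 2 - 3 * V2 a * f 1 - V3 a * f 0
  | _ => f 5 - a * f 4 - 4 * V1 a * f 3 - 6 * V2 a * f 2 - 4 * V3 a * f 1 - V4 a * f 0

lemma Ch.jt {F : ℕ → ℝ → ℂ} (h : Ch F) : ∀ k ≤ 4, iteratedDeriv k (fun x => F 1 x - v x * F 0 x) =
    fun x => jet (v x) (F · x) k := itd (g := fun k x => jet (v x) (F · x) k) fun k hk x => by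
  interval_cases k <;> simp only [jet]
  · exact ((h 1 x).sub ((d0 x).mul (h 0 x))).congr_deriv (by ring)
  · exact (((h 2 x).sub ((d0 x).mul (h 1 x))).sub ((d1 x).mul (h 0 x))).congr_deriv (by ring)
  · exact ((((h 3 x).sub ((d0 x).mul (h 2 x))).sub (((d1 x).const_mul 2).mul (h 1 x))).sub
      ((d2 x).mul (h 0 x))).congr_deriv (by ring)
  · exact (((((h 4 x).sub ((d0 x).mul (h 3 x))).sub (((d1 x).const_mul 3).mul (h 2 x))).sub
      (((d2 x).const_mul 3).mul (h 1 x))).sub ((d3 x).mul (h 0 x))).congr_deriv (by ring)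

lemma fund {l : ℂ} (F : Fin 4 → ℕ → ℝ → ℂ) (h : ∀ j, Ch (F j)) (M : Matrix (Fin 4) (Fin 4) ℂ)
    (h5 : ∀ j x, F j 5 x - v x * F j 4 x = l * (F j 1 x - v x * F j 0 x))
    (hM : ∀ j, ∀ k ≤ 4, F j k π = ∑ i, F i k 0 * M i j)
    (hW : (of fun k j : Fin 4 => jet (1 + 3 * I) (F j · 0) k).det ≠ 0) :
    ∃ u, Fund p l u ∧ ∀ r : ℂ, (r • 1 - of fun k j : Fin 4 => iteratedDeriv k (u j) π).det = (r • 1 - M).det := by
  set W := of fun k j : Fin 4 => jet (1 + 3 * I) (F j · 0) k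
  have hG : ∀ j, Ch fun k x => ∑ i, F i k x * W⁻¹ i j := fun j k x =>
    .fun_sum fun i _ => (h i k x).mul_const _
  have h1 : ∀ j (k : Fin 4) x, iteratedDeriv k (fun x => ∑ i, F i 1 x * W⁻¹ i j -
      v x * ∑ i, F i 0 x * W⁻¹ i j) x = ∑ i, jet (v x) (F i · x) k * W⁻¹ i j := fun j k x => by
    rw [(hG j).jt k (by omega)]
    fin_cases k <;> simp only [jet, Fin.sum_univ_four] <;> ring
  have hW' := isUnit_iff_ne_zero.2 hW
  refine ⟨fun j x => ∑ i, F i 1 x * W⁻¹ i j - v x * ∑ i, F i 0 x * W⁻¹ i j, fun j => ⟨?_, fun x => ?_,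
    fun k => ?_⟩, fun r => ?_⟩
  · exact (((hG j).smooth 1).sub (v_smooth.mul ((hG j).smooth 0))).of_le (WithTop.coe_le_coe.2 (le_top (a := (4 : ℕ∞))))
  · simp only [Lop, Fin.sum_univ_three, Fin.val_zero, Fin.val_one, Fin.val_two, (hG j).jt _ le_rfl,
      (hG j).jt 0 (by omega), (hG j).jt 1 (by omega), (hG j).jt 2 (by omega)]
    simp only [jet, p, V4, V3, V2, V1, Fin.sum_univ_four, cons_val_zero, cons_val_one, cons_val]
    linear_combination W⁻¹ 0 j * h5 0 x + W⁻¹ 1 j * h5 1 x + W⁻¹ 2 j * h5 2 x + W⁻¹ 3 j * h5 3 x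
  · rw [h1, v0]
    exact (congrFun₂ (mul_nonsing_inv W hW') k j).trans (by simp [one_apply, eq_comm])
  · have : (of fun k j : Fin 4 => iteratedDeriv k (fun x => ∑ i, F i 1 x * W⁻¹ i j -
        v x * ∑ i, F i 0 x * W⁻¹ i j) π) = W * M * W⁻¹ := by
      ext k j
      rw [of_apply, h1, ← zero_add π, vπ, v0, zero_add]
      refine Finset.sum_congr rfl fun i _ => congrArg (· * _) ?_
      fin_cases k <;> simp (disch := omega) only [jet, hM, mul_apply, W, of_apply, Fin.sum_univ_four] <;> ring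
    rw [this, ← det_conj (isUnit_iff_isUnit_det W |>.2 hW') (r • 1 - M)]
    simp [Matrix.mul_sub, Matrix.sub_mul, mul_nonsing_inv W hW']

lemma detG (l : ℂ) (f : Fin 4 → ℕ → ℂ) (h : ∀ j, f j 4 = l * f j 0) :
    (of fun k j : Fin 4 => jet (1 + 3 * I) (f j) k).det = -(l + 4) * (of fun k j : Fin 4 => f j k).det := by
  generalize 1 + 3 * I = a
  have : (of fun k j : Fin 4 => jet a (f j) k) = !![-a, 1, 0, 0; -V1 a, -a, 1, 0; -V2 a, -2 * V1 a, -a, 1;
      l - V3 a, -3 * V2 a, -3 * V1 a, -a] * of fun k j : Fin 4 => f j k := by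
    ext k j
    fin_cases k <;> simp [jet, mul_apply, Fin.sum_univ_four, h] <;> ring
  rw [this, det_mul]
  congr 1
  simp [det_succ_row_zero, Fin.sum_univ_succ, Fin.succAbove, V3, V2, V1]
  ring

lemma cases (μ : ℂ) : ∃ u, Fund p (μ ^ 4) u ∧ ∀ r : ℂ, ((r • 1 - of fun k j : Fin 4 =>
    iteratedDeriv k (u j) π).det = 0 ↔ ∃ m, m ^ 4 = μ ^ 4 ∧ r = exp (m * (π : ℝ))) := by
  have key : ∀ (μ : ℂ) (M : Matrix (Fin 4) (Fin 4) ℂ), M.BlockTriangular id →
      (∀ j : Fin 4, M j j = exp (μ * I ^ (j : ℕ) * (π : ℝ))) → ∀ r : ℂ,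
      ((r • 1 - M).det = 0 ↔ ∃ m, m ^ 4 = μ ^ 4 ∧ r = exp (m * (π : ℝ))) := fun μ M h1 h2 r => by
    rw [det_of_isUpperTriangular (M := r • 1 - M) fun i j h => by
      simp [h1 h, one_apply_ne (show i ≠ j from ne_of_gt h)], Finset.prod_eq_zero_iff]
    simp only [Finset.mem_univ, true_and, Matrix.sub_apply, Matrix.smul_apply, one_apply_eq, smul_eq_mul, mul_one, h2,
      sub_eq_zero]
    refine ⟨fun ⟨j, h⟩ => ⟨_, by rw [mul_pow, ← pow_mul, mul_comm _ 4, pow_mul]; simp, h⟩, fun ⟨m, h, e⟩ => ?_⟩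
    have : ∏ j : Fin 4, (m - μ * I ^ (j : ℕ)) = 0 := by
      simp [Fin.prod_univ_four, -mul_eq_zero]
      linear_combination h - μ ^ 2 * (m ^ 2 - μ ^ 2) * I_sq
    obtain ⟨j, -, hj⟩ := Finset.prod_eq_zero_iff.1 this
    exact ⟨j, by rw [e, sub_eq_zero.1 hj]⟩
  have h4 : (1 - I) ^ 4 = -4 := by linear_combination (I ^ 2 - 4 * I + 5) * I_sq
  have h5 : ∀ (m : ℂ) (j : ℕ), (m * I ^ j) ^ 4 = m ^ 4 := fun m j => by
    rw [mul_pow, ← pow_mul, mul_comm _ 4, pow_mul]; simp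
  rcases eq_or_ne μ 0 with rfl | h0
  · obtain ⟨u, a, b⟩ := fund (l := 0 ^ 4) (fun j k x => (j : ℕ).descFactorial k * x ^ ((j : ℕ) - k))
      (fun j k x => by
        refine ((hasDerivAt_pow ((j : ℕ) - k) (x : ℂ)).const_mul _).comp_ofReal.congr_deriv ?_
        simp only [Nat.descFactorial_succ, Nat.sub_sub]; push_cast; ring)
      !![1, π, π ^ 2, π ^ 3; 0, 1, 2 * π, 3 * π ^ 2; 0, 0, 1, 3 * π; 0, 0, 0, 1]
      (fun j x => by fin_cases j <;> simp [Nat.descFactorial])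
      (fun j k hk => by
        fin_cases j <;> interval_cases k <;> simp [Nat.descFactorial, Fin.sum_univ_four] <;> ring) (by
        rw [detG 0 _ fun j => by fin_cases j <;> simp [Nat.descFactorial]]
        simp [det_succ_row_zero, Fin.sum_univ_succ, Fin.succAbove, Nat.descFactorial])
    refine ⟨u, a, fun r => b r ▸ key _ _ (fun i j h => ?_) (fun j => ?_) r⟩
    · fin_cases i <;> fin_cases j <;> simp at h ⊢
    · fin_cases j <;> simp
  rcases eq_or_ne (μ ^ 4) (-4) with h1 | h1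
  · rw [h1, ← h4]
    have h6 : ∀ k x, ψ (k + 4) x = -4 * ψ k x := fun k x => by
      rw [ψ2 (k + 2), ψ2 (k + 1), ψ2 k]; ring
    obtain ⟨u, a, b⟩ := fund (l := (1 - I) ^ 4) ![fun k => ψ (k + 1), fun k x => x * ψ (k + 1) x + k * ψ k x,
      fun k x => ((1 - I) * I ^ 2) ^ k * exp ((1 - I) * I ^ 2 * x),
      fun k x => ((1 - I) * I ^ 3) ^ k * exp ((1 - I) * I ^ 3 * x)] (fun j => by
        fin_cases j
        · exact fun k => chψ _
        · intro k x
          exact (((hasDerivAt_id x).ofReal_comp.mul (chψ (k + 1) x)).add ((chψ k x).const_mul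
            (k : ℂ))).congr_deriv (by simp; ring)
        exacts [chE _, chE _])
      !![exp ((1 - I) * (π : ℝ)), π * exp ((1 - I) * (π : ℝ)), 0, 0; 0, exp ((1 - I) * (π : ℝ)), 0, 0;
        0, 0, exp ((1 - I) * I ^ 2 * (π : ℝ)), 0; 0, 0, 0, exp ((1 - I) * I ^ 3 * (π : ℝ))]
      (fun j x => by
        have := ψ0 x
        fin_cases j
        · simp [h4, h6 2, h6 1]; ring
        · simp [h4, h6 2, h6 1, h6 0, v]; field_simp; ring
        · rw [← h5 _ 2]; simp only [Fin.reduceFinMk, cons_val]; ring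
        · rw [← h5 _ 3]; simp only [Fin.reduceFinMk, cons_val]; ring)
      (fun j k _ => by
        have := fun k => ψπ k 0
        simp only [zero_add] at this
        fin_cases j <;> simp [this, Fin.sum_univ_four] <;> ring) (by
        simp [det_succ_row_zero, Fin.sum_univ_succ, Fin.succAbove, jet, ψ, V3, V2, V1, Complex.ext_iff, pow_succ]
        norm_num)
    refine ⟨u, a, fun r => b r ▸ key _ _ (fun i j h => ?_) (fun j => ?_) r⟩
    · fin_cases i <;> fin_cases j <;> simp at h ⊢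
    · have : (1 - I) * I = 1 + I := by linear_combination -I_sq
      fin_cases j <;> simp [this, ← eπ]
  · obtain ⟨u, a, b⟩ := fund (l := μ ^ 4) (fun j k x => (μ * I ^ (j : ℕ)) ^ k * exp (μ * I ^ (j : ℕ) * x))
      (fun j => chE _) (diagonal fun j => exp (μ * I ^ (j : ℕ) * (π : ℝ)))
      (fun j x => by rw [← h5 μ j]; ring) (fun j k _ => by simp [diagonal_apply]) (by
        rw [detG (μ ^ 4) _ fun j => by simp [h5]]
        refine mul_ne_zero (fun h => h1 (by linear_combination -h)) ?_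
        rw [← det_transpose]
        refine (congrArg det ?_).trans_ne ((det_vandermonde_ne_zero_iff
          (v := fun j : Fin 4 => μ * I ^ (j : ℕ))).2 fun i j h =>
          Fin.ext (isPrimitiveRoot_I.pow_inj i.2 j.2 (mul_left_cancel₀ h0 h)))
        ext; simp)
    exact ⟨u, a, fun r => by rw [b]; exact key _ _ (blockTriangular_diagonal _) (by simp) r⟩

noncomputable def Δ (w : ℂ) : ℂ := 2 * ∑' n : ℕ, (π ^ 2 * w) ^ n / (2 * n).factorial

lemma Δ_sq (m : ℂ) : Δ (m ^ 2) = exp (m * (π : ℝ)) + exp (-m * (π : ℝ)) := by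
  have := (hasSum_cosh (m * (π : ℝ))).tsum_eq
  simp only [pow_mul, show (m * (π : ℝ)) ^ 2 = π ^ 2 * m ^ 2 by ring] at this
  rw [Δ, this, cosh, neg_mul]; ring

lemma Δ_diff : Differentiable ℂ Δ := fun z => by
  refine ((differentiableOn_tsum_of_summable_norm (U := Metric.ball 0 (‖z‖ + 1))
    (Real.summable_pow_div_factorial (π ^ 2 * (‖z‖ + 1))) (fun n => by fun_prop) Metric.isOpen_ball
    fun n w hw => ?_).differentiableAt (Metric.isOpen_ball.mem_nhds (by simp))).const_mul 2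
  simp only [norm_div, norm_pow, norm_mul, norm_real, Real.norm_eq_abs, sq_abs, norm_natCast]
  gcongr
  exacts [(mem_ball_zero_iff.1 hw).le, by omega]

theorem result : ∃ (b : ℝ) (p : Fin 3 → ℝ → ℂ), 0 < b ∧
    (∀ k, ContDiff ℝ ∞ (p k) ∧ Function.Periodic (p k) b) ∧
    (∃ (R : ℂ[X]) (Δ : ℂ → ℂ), R.Monic ∧ R.natDegree = 2 ∧ Differentiable ℂ Δ ∧
      ∀ l : ℂ, ∃ u, Fund p l u ∧ ∀ r : ℂ, r ≠ 0 →
        ((r • 1 - of fun k j : Fin 4 => iteratedDeriv k (u j) b).det = 0 ↔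
          ((R - C l).roots.map fun w => r + r⁻¹ - Δ w).prod = 0)) ∧
    ∀ (q : ℝ → ℂ) (c₀ c₁ : ℂ), ContDiff ℝ 2 q → ¬ ∀ u, ContDiff ℝ ∞ u → ∀ x,
      Lop p u x = Hop q (Hop q u) x + c₁ * Hop q u x + c₀ * u x := by
  have hv := v_smooth
  refine ⟨π, p, Real.pi_pos, fun k => ⟨?_, fun x => ?_⟩, ⟨X ^ 2, Δ, monic_X_pow 2, by simp, Δ_diff,
    fun l => ?_⟩, fun q c₀ c₁ hq h => ?_⟩
  · fin_cases k <;> simp only [p, V3, V2, V1, Fin.reduceFinMk, cons_val] <;> fun_prop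
  · fin_cases k <;> simp [p, vπ]
  · obtain ⟨μ, rfl⟩ := IsAlgClosed.exists_pow_nat_eq l (n := 4) (by norm_num)
    obtain ⟨u, a, b⟩ := cases μ
    refine ⟨u, a, fun r hr => (b r).trans ?_⟩
    simp only [Multiset.prod_eq_zero_iff, Multiset.mem_map, mem_roots (X_pow_sub_C_ne_zero two_pos _),
      IsRoot.def, eval_sub, eval_pow, eval_X, eval_C, sub_eq_zero]
    refine ⟨fun ⟨m, c, e⟩ => ⟨m ^ 2, by rw [← c]; ring, by rw [Δ_sq, e, neg_mul, exp_neg]⟩, fun ⟨w, c, e⟩ => ?_⟩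
    obtain ⟨m, rfl⟩ := IsAlgClosed.exists_pow_nat_eq w (n := 2) (by norm_num)
    have h1 : exp (m * (π : ℝ)) * exp (-m * (π : ℝ)) = 1 := by rw [← exp_add]; simp
    have h2 : (r - exp (m * (π : ℝ))) * (r - exp (-m * (π : ℝ))) = 0 := by
      rw [Δ_sq] at e
      linear_combination h1 + r * e - mul_inv_cancel₀ hr
    rcases mul_eq_zero.1 h2 with h | h
    exacts [⟨m, by rw [← c]; ring, sub_eq_zero.1 h⟩, ⟨-m, by rw [← c]; ring, sub_eq_zero.1 h⟩]
  · have q1 : ∀ x, HasDerivAt q (deriv q x) x := fun x => (hq.differentiable (by simp) x).hasDerivAt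
    have q2 : ∀ x, HasDerivAt (deriv q) (deriv (deriv q) x) x := fun x =>
      ((contDiff_succ_iff_deriv (n := 1)).1 hq |>.2.2.differentiable (by simp) x).hasDerivAt
    have key : ∀ (m : ℂ) x, p 0 x + p 1 x * m + p 2 x * m ^ 2 = deriv (deriv q) x + 2 * m * deriv q x +
        2 * m ^ 2 * q x + q x ^ 2 + c₁ * (m ^ 2 + q x) + c₀ := fun m x => by
      have h1 := fun k => itd (n := k) (fun k _ => chE m k) k le_rfl
      have h2 : Hop q (fun x : ℝ => m ^ 0 * exp (m * x)) = fun x : ℝ => (m ^ 2 + q x) * exp (m * x) := by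
        ext x; simp only [Hop, h1]; ring
      have h3 := itd (n := 2) (g := fun k x => match k with
        | 0 => (m ^ 2 + q x) * exp (m * x)
        | 1 => (deriv q x + (m ^ 2 + q x) * m) * exp (m * x)
        | _ => (deriv (deriv q) x + 2 * m * deriv q x + (m ^ 2 + q x) * m ^ 2) * exp (m * x))
        (fun k hk x => by
          interval_cases k
          · exact (((q1 x).const_add _).mul (hE m x)).congr_deriv (by simp; ring)
          · exact (((q2 x).add (((q1 x).const_add _).mul_const m)).mul (hE m x)).congr_deriv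
              (by simp; ring)) 2 le_rfl
      simp only [] at h3
      have h4 := h _ ((chE m).smooth 0) x
      rw [h2] at h4
      simp only [Lop, h1, Fin.sum_univ_three, Hop, h3, Fin.val_zero, Fin.val_one, Fin.val_two] at h4
      exact mul_right_cancel₀ (exp_ne_zero (m * x)) (by linear_combination h4)
    have h1 : q = fun x => 2 * V1 (v x) - c₁ / 2 := funext fun x => by
      have : p 2 x = 4 * V1 (v x) := rfl
      linear_combination -(key 1 x + key (-1) x - 2 * key 0 x - 2 * this) / 4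
    have h2 : deriv q 0 = 2 * V2 (v 0) := by rw [h1]; exact (((d1 0).const_mul 2).sub_const _).deriv
    have h3 : p 1 0 = 6 * V2 (v 0) + 4 * v 0 * V1 (v 0) := rfl
    have h4 : 2 * V2 (v 0) + 4 * v 0 * V1 (v 0) = 0 := by
      linear_combination (key 1 0 - key (-1) 0) / 2 - h3 + 2 * h2
    norm_num [v0, V2, V1, Complex.ext_iff, pow_succ] at h4

end Pool.Agent.Results.MP_214325_an.Darboux
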